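import Pool.Agent.H12.KSJ.Targets

/-!
# Project KEW (MP_7b949a_ag), surjectivity, row DLX: the dimension function
-/

open CategoryTheory TopologicalSpace Opposite AlgebraicGeometry Limits
open Pool.Agent.H62.MK Pool.Agent.H84.KEW Pool.Agent.H19.KN
open Pool.Agent.H17.KW (kap Pts entry column dFam D dD Gersten topSh KSh redSh thick thickι Fsh AbSh
  cycK)
open Pool.Agent.H12.KG (Sp GenSp kA stA rho projStr)

universe u

namespace Pool.Agent.H77.KSJ

open Pool.Agent.H12.KSJ

variable {X : Scheme.{u}}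

theorem dl_spec {d : ℕ} (hdim : ∀ x : X, Order.coheight x ≤ d + 1) (x : X) :
    ∃ k : ℕ, Order.coheight x = k ∧ k + dl (X := X) d x = d + 1 := by
  have hne : Order.coheight x ≠ ⊤ := by
    intro e
    have := hdim x
    rw [e] at this
    exact absurd this (by simp)
  obtain ⟨k, hk⟩ := ENat.ne_top_iff_exists.1 hne
  refine ⟨k, hk.symm, ?_⟩
  have h1 : k ≤ d + 1 := by
    have := hdim x
    rw [← hk] at this
    exact_mod_cast this
  unfold dl
  rw [← hk, ENat.toNat_natCast]
  omega

theorem pf_DLX : T_DLX.{u} := by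
  intro A _ X f π e hdim
  have hdim' : ∀ x : X, Order.coheight x ≤ ((e + 1 : ℕ) : ℕ∞) + 1 := by
    intro x
    refine (hdim x).trans (le_of_eq ?_)
    push_cast
    rw [add_assoc]
    norm_num
  refine ⟨?_, ?_, ?_, ?_⟩
  · intro x y h hne
    obtain ⟨k, hk, hk'⟩ := dl_spec hdim' x
    obtain ⟨l, hl, hl'⟩ := dl_spec hdim' y
    have h1 := Pool.Agent.H17.KE.coheight_lt_of_specializes h hne
      (by rw [hl]; exact ENat.natCast_lt_top l)
    rw [hk, hl] at h1
    have h2 : k < l := by exact_mod_cast h1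
    omega
  · intro s v
    obtain ⟨k, hk, hk'⟩ := dl_spec hdim' v.1
    have h1 := v.2
    rw [hk] at h1
    have h2 : k + s = e + 1 := by exact_mod_cast h1
    omega
  · intro s x _ hx
    obtain ⟨k, hk, hk'⟩ := dl_spec hdim' x
    rw [hk]
    have h1 : k + s = e + 2 := by omega
    exact_mod_cast h1
  · rw [← isOpen_compl_iff]
    exact Pool.Agent.H15.KEW.isOpen_not_sp f π

end Pool.Agent.H77.KSJ
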